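import Mathlib

set_option autoImplicit false

namespace Pool.Agent.Results.MP_aceab8_an.Even

open Matrix

abbrev E3 := EuclideanSpace ℝ (Fin 3)

/-- Integer coordinates of the four vertices. -/
def w : Fin 4 → Fin 3 → ℤ := ![![1, 1, 1], ![1, -1, -1], ![-1, 1, -1], ![-1, -1, 1]]

/-- The vertices of the regular tetrahedron. -/
noncomputable def A (i : Fin 4) : E3 := WithLp.toLp 2 (fun j => (w i j : ℝ))

/-- The solid regular tetrahedron. -/
def T : Set E3 := convexHull ℝ (Set.range A)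

/-- The face opposite to the vertex `A i`. -/
def face (i : Fin 4) : Set E3 := convexHull ℝ (A '' {j | j ≠ i})

/-- `ν` is a unit normal of the face opposite to `A i`. -/
def IsUnitNormal (i : Fin 4) (ν : E3) : Prop :=
  ‖ν‖ = 1 ∧ ∀ x ∈ face i, ∀ y ∈ face i, inner ℝ (x - y) ν = 0

/-- A billiard trajectory given by its successive bounce points `P k`, lying in the relative
interior of the face `f k`, and the unit velocity `v k` with which it leaves `P k`. -/
structure IsTrajectory (P : ℕ → E3) (f : ℕ → Fin 4) (v : ℕ → E3) : Prop where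
  onFace : ∀ k, P k ∈ intrinsicInterior ℝ (face (f k))
  unit : ∀ k, ‖v k‖ = 1
  move : ∀ k, ∃ t : ℝ, 0 < t ∧ P (k + 1) = P k + t • v k ∧
    ∀ s : ℝ, 0 < s → s < t → P k + s • v k ∈ interior T
  reflect : ∀ k, ∃ ν : E3, IsUnitNormal (f (k + 1)) ν ∧
    v (k + 1) = v k - (2 * inner ℝ (v k) ν) • ν

/-- The linear functional `x ↦ ⟨A i, x⟩`. -/
def L (i : Fin 4) (x : E3) : ℝ := (w i 0 : ℝ) * x 0 + (w i 1 : ℝ) * x 1 + (w i 2 : ℝ) * x 2

lemma L_lin (i : Fin 4) : IsLinearMap ℝ (L i) := by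
  constructor
  · intro x y; simp [L]; ring
  · intro c x; simp [L]; ring

lemma L_A (i j : Fin 4) : L i (A j) = if i = j then 3 else -1 := by
  fin_cases i <;> fin_cases j <;> simp [L, A, w] <;> norm_num

lemma L_face (i : Fin 4) {x : E3} (hx : x ∈ face i) : L i x = -1 := by
  have : face i ⊆ {x | L i x = -1} := by
    apply convexHull_min _ (convex_hyperplane (L_lin i) _)
    rintro _ ⟨j, hj, rfl⟩
    simp only [Set.mem_ofPred_eq] at hj ⊢
    rw [L_A, if_neg (Ne.symm hj)]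
  exact this hx

lemma L_T (i : Fin 4) {x : E3} (hx : x ∈ T) : -1 ≤ L i x := by
  have : T ⊆ {x | -1 ≤ L i x} := by
    apply convexHull_min _ (convex_halfSpace_ge (L_lin i) _)
    rintro _ ⟨j, rfl⟩
    simp only [Set.mem_ofPred_eq]
    rw [L_A]; split_ifs <;> norm_num
  exact this hx

lemma L_int (i : Fin 4) {x : E3} (hx : x ∈ interior T) : -1 < L i x := by
  have hc : Continuous (fun s : ℝ => x - s • A i) := by fun_prop
  have h0 : (fun s : ℝ => x - s • A i) ⁻¹' interior T ∈ nhds (0 : ℝ) := by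
    apply hc.continuousAt.preimage_mem_nhds
    simpa using isOpen_interior.mem_nhds hx
  obtain ⟨ε, hε, hb⟩ := Metric.mem_nhds_iff.1 h0
  have h1 : x - (ε / 2) • A i ∈ T := by
    apply interior_subset
    apply hb
    rw [Metric.mem_ball, Real.dist_eq, sub_zero, abs_of_pos (by linarith)]
    linarith
  have h2 := L_T i h1
  rw [(L_lin i).map_sub, (L_lin i).map_smul, L_A, if_pos rfl, smul_eq_mul] at h2
  linarith

lemma faces_ne {P : ℕ → E3} {f : ℕ → Fin 4} {v : ℕ → E3} (h : IsTrajectory P f v) (k : ℕ)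
    (i : Fin 4) (h1 : P k ∈ face i) (h2 : P (k + 1) ∈ face i) : False := by
  obtain ⟨t, ht, hP, hs⟩ := h.move k
  have a1 := L_face i h1
  have a2 := L_face i h2
  have a3 := L_int i (hs (t / 2) (by linarith) (by linarith))
  rw [hP] at a2
  rw [(L_lin i).map_add, (L_lin i).map_smul, smul_eq_mul] at a2 a3
  have : L i (v k) = 0 := by
    have : t * L i (v k) = 0 := by linarith
    rcases mul_eq_zero.1 this with h | h
    · linarith
    · exact h
  rw [this] at a3
  linarith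

/-- Three times the reflection matrix. -/
def B (i : Fin 4) : Matrix (Fin 3) (Fin 3) ℤ := fun a b => (if a = b then 3 else 0) - 2 * w i a * w i b

lemma A_mem (i j : Fin 4) (h : j ≠ i) : A j ∈ face i := subset_convexHull _ _ ⟨j, h, rfl⟩

lemma refl_eq (i : Fin 4) (ν x : E3) (hν : IsUnitNormal i ν) :
    ((B i).map (Int.cast : ℤ → ℝ)) *ᵥ x.ofLp = (3 : ℝ) • (x - (2 * inner ℝ x ν) • ν).ofLp := by
  obtain ⟨h1, h2⟩ := hν
  have hn : ν 0 ^ 2 + ν 1 ^ 2 + ν 2 ^ 2 = 1 := by
    have := EuclideanSpace.real_norm_sq_eq ν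
    rw [h1, Fin.sum_univ_three] at this
    linarith
  have hin : ∀ x y : E3, inner ℝ x y = x 0 * y 0 + x 1 * y 1 + x 2 * y 2 := by
    intro x y
    rw [PiLp.inner_apply, Fin.sum_univ_three]
    simp [mul_comm]
  have key : ∀ j l, j ≠ i → l ≠ i → inner ℝ (A j - A l) ν = 0 :=
    fun j l hj hl => h2 _ (A_mem i j hj) _ (A_mem i l hl)
  have hw : ∃ c : ℝ, ν 0 = c * w i 0 ∧ ν 1 = c * w i 1 ∧ ν 2 = c * w i 2 := by
    fin_cases i
    · have e1 := key 1 2 (by decide) (by decide)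
      have e2 := key 1 3 (by decide) (by decide)
      rw [hin] at e1 e2
      simp [A, w] at e1 e2
      refine ⟨ν 0, ?_, ?_, ?_⟩ <;> simp [w] <;> linarith
    · have e1 := key 0 2 (by decide) (by decide)
      have e2 := key 0 3 (by decide) (by decide)
      rw [hin] at e1 e2
      simp [A, w] at e1 e2
      refine ⟨ν 0, ?_, ?_, ?_⟩ <;> simp [w] <;> linarith
    · have e1 := key 0 1 (by decide) (by decide)
      have e2 := key 0 3 (by decide) (by decide)
      rw [hin] at e1 e2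
      simp [A, w] at e1 e2
      refine ⟨ν 1, ?_, ?_, ?_⟩ <;> simp [w] <;> linarith
    · have e1 := key 0 1 (by decide) (by decide)
      have e2 := key 0 2 (by decide) (by decide)
      rw [hin] at e1 e2
      simp [A, w] at e1 e2
      refine ⟨ν 2, ?_, ?_, ?_⟩ <;> simp [w] <;> linarith
  obtain ⟨c, c0, c1, c2⟩ := hw
  have hc : 3 * c ^ 2 = 1 := by
    have hsq : ∀ i : Fin 4, w i 0 ^ 2 + w i 1 ^ 2 + w i 2 ^ 2 = 3 := by decide
    have hsq' : (w i 0 : ℝ) ^ 2 + (w i 1 : ℝ) ^ 2 + (w i 2 : ℝ) ^ 2 = 3 := by exact_mod_cast hsq i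
    rw [c0, c1, c2] at hn
    linear_combination hn - c ^ 2 * hsq'
  rw [hin]
  funext a
  fin_cases a <;>
    simp [B, Matrix.mulVec, dotProduct, Fin.sum_univ_three, c0, c1, c2]
  · linear_combination (2 * (w i 0 : ℝ) * (x 0 * w i 0 + x 1 * w i 1 + x 2 * w i 2)) * hc
  · linear_combination (2 * (w i 1 : ℝ) * (x 0 * w i 0 + x 1 * w i 1 + x 2 * w i 2)) * hc
  · linear_combination (2 * (w i 2 : ℝ) * (x 0 * w i 0 + x 1 * w i 1 + x 2 * w i 2)) * hc

/-- The product `B (f k) ⋯ B (f 1)`. -/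
def N (f : ℕ → Fin 4) : ℕ → Matrix (Fin 3) (Fin 3) ℤ
  | 0 => 1
  | k + 1 => B (f (k + 1)) * N f k

lemma B_orth (i : Fin 4) : (B i)ᵀ * B i = (9 : ℤ) • (1 : Matrix (Fin 3) (Fin 3) ℤ) := by
  revert i; decide

lemma B_det (i : Fin 4) : (B i).det = -27 := by
  rw [det_fin_three]; revert i; decide

lemma N_orth (f : ℕ → Fin 4) (k : ℕ) :
    (N f k)ᵀ * N f k = ((3 : ℤ) ^ k) ^ 2 • (1 : Matrix (Fin 3) (Fin 3) ℤ) := by
  induction k with
  | zero => simp [N]
  | succ k ih =>
    rw [N, transpose_mul, Matrix.mul_assoc, ← Matrix.mul_assoc (B _)ᵀ, B_orth, Matrix.smul_mul,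
      Matrix.one_mul, Matrix.mul_smul, ih, smul_smul]
    congr 1; ring

lemma N_det (f : ℕ → Fin 4) (k : ℕ) : (N f k).det = (-27) ^ k := by
  induction k with
  | zero => simp [N]
  | succ k ih => rw [N, det_mul, ih, B_det]; ring

lemma N_mod (f : ℕ → Fin 4) (hf : ∀ k, f k ≠ f (k + 1)) (k : ℕ) (a b : Fin 3) :
    ((N f (k + 1) a b : ℤ) : ZMod 3) = (-1) ^ k * (w (f (k + 1)) a : ZMod 3) * (w (f 1) b : ZMod 3) := by
  induction k generalizing a with
  | zero =>
    simp only [N, Matrix.mul_one, zero_add, pow_zero, one_mul]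
    generalize f 1 = i
    revert i a b; decide
  | succ k ih =>
    rw [N, Matrix.mul_apply, Fin.sum_univ_three]
    push_cast
    rw [ih, ih, ih]
    have : ∀ i j : Fin 4, j ≠ i → ∀ a : Fin 3,
        ((B i a 0 : ℤ) : ZMod 3) * (w j 0 : ZMod 3) + ((B i a 1 : ℤ) : ZMod 3) * (w j 1 : ZMod 3)
          + ((B i a 2 : ℤ) : ZMod 3) * (w j 2 : ZMod 3) = -(w i a : ZMod 3) := by decide
    have h := this _ _ (hf (k + 1)) a
    linear_combination ((-1) ^ k * (w (f 1) b : ZMod 3)) * h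

lemma trace_eq (M : Matrix (Fin 3) (Fin 3) ℤ) (q : ℤ) (hq : q ≠ 0)
    (h1 : Mᵀ * M = q ^ 2 • (1 : Matrix (Fin 3) (Fin 3) ℤ)) (h2 : M.det = -q ^ 3)
    (h3 : (M - q • (1 : Matrix (Fin 3) (Fin 3) ℤ)).det = 0) : M.trace = q := by
  have a1 : q ^ 2 • M.adjugate = (-q ^ 3) • Mᵀ := by
    have : Mᵀ * (M * M.adjugate) = (-q ^ 3) • Mᵀ := by
      rw [mul_adjugate, h2, Matrix.mul_smul, Matrix.mul_one]
    rw [← this, ← Matrix.mul_assoc, h1, Matrix.smul_mul, Matrix.one_mul]
  have a2 := congrArg Matrix.trace a1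
  rw [trace_smul, trace_smul, trace_transpose, smul_eq_mul, smul_eq_mul] at a2
  have a3 : (M - q • (1 : Matrix (Fin 3) (Fin 3) ℤ)).det
      = M.det - q * M.adjugate.trace + q ^ 2 * M.trace - q ^ 3 := by
    rw [det_fin_three, det_fin_three, adjugate_fin_three, trace_fin_three, trace_fin_three]
    simp only [Matrix.sub_apply, Matrix.smul_apply, Matrix.one_apply, smul_eq_mul]
    simp
    ring
  rw [h3, h2] at a3
  have : q ^ 3 * (M.trace - q) = 0 := by
    have h2 : 2 * (q ^ 3 * (M.trace - q)) = 0 := by linear_combination a2 - q * a3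
    linarith
  rcases mul_eq_zero.1 this with h | h
  · exact absurd (pow_eq_zero_iff (by norm_num) |>.1 h) hq
  · linarith

theorem result (P : ℕ → E3) (f : ℕ → Fin 4) (v : ℕ → E3) (h : IsTrajectory P f v)
    (n : ℕ) (hP : P n = P 0) (hv : v n = v 0) : Even n := by
  by_contra hodd
  rw [Nat.not_even_iff_odd] at hodd
  have hface : ∀ k, P k ∈ face (f k) := fun k => intrinsicInterior_subset (h.onFace k)
  have hf : ∀ k, f k ≠ f (k + 1) := by
    intro k hk
    exact faces_ne h k (f k) (hface k) (hk ▸ hface (k + 1))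
  have hlast : f n ≠ f 1 := by
    intro hk
    exact faces_ne h 0 (f n) (hP ▸ hface n) (hk ▸ hface 1)
  have hvel : ∀ k, ((N f k).map (Int.cast : ℤ → ℝ)) *ᵥ (v 0).ofLp = (3 : ℝ) ^ k • (v k).ofLp := by
    intro k
    induction k with
    | zero => simp [N]
    | succ k ih =>
      obtain ⟨ν, hν, he⟩ := h.reflect k
      have : (N f (k + 1)).map (Int.cast : ℤ → ℝ)
          = (B (f (k + 1))).map (Int.cast : ℤ → ℝ) * (N f k).map (Int.cast : ℤ → ℝ) := by
        rw [N]
        exact Matrix.map_mul (f := Int.castRingHom ℝ)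
      rw [this, ← Matrix.mulVec_mulVec, ih, Matrix.mulVec_smul, refl_eq _ ν _ hν, ← he, smul_smul,
        pow_succ]
  have hdet : (N f n - (3 : ℤ) ^ n • (1 : Matrix (Fin 3) (Fin 3) ℤ)).det = 0 := by
    have h1 : ((N f n - (3 : ℤ) ^ n • (1 : Matrix (Fin 3) (Fin 3) ℤ)).map
        (Int.cast : ℤ → ℝ)).det = 0 := by
      rw [← Matrix.exists_mulVec_eq_zero_iff]
      refine ⟨(v 0).ofLp, ?_, ?_⟩
      · intro h0
        have : v 0 = 0 := by ext a; simpa using congrFun h0 a
        have h2 := h.unit 0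
        rw [this] at h2
        simp at h2
      · have : (N f n - (3 : ℤ) ^ n • (1 : Matrix (Fin 3) (Fin 3) ℤ)).map (Int.cast : ℤ → ℝ)
            = (N f n).map (Int.cast : ℤ → ℝ) - (3 : ℝ) ^ n • (1 : Matrix (Fin 3) (Fin 3) ℝ) := by
          ext a b
          simp only [Matrix.map_apply, Matrix.sub_apply, Matrix.smul_apply, Matrix.one_apply,
            smul_eq_mul]
          split_ifs <;> push_cast <;> ring
        rw [this, Matrix.sub_mulVec, hvel, hv, Matrix.smul_mulVec, Matrix.one_mulVec, sub_self]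
    have h2 := (Int.castRingHom ℝ).map_det (N f n - (3 : ℤ) ^ n • (1 : Matrix (Fin 3) (Fin 3) ℤ))
    have h3 : (((N f n - (3 : ℤ) ^ n • (1 : Matrix (Fin 3) (Fin 3) ℤ)).det : ℤ) : ℝ) = 0 :=
      h2.trans h1
    exact_mod_cast h3
  have htr := trace_eq (N f n) (3 ^ n) (by positivity) (N_orth f n)
    (by rw [N_det, hodd.neg_pow, ← pow_mul, mul_comm, pow_mul]; norm_num) hdet
  obtain ⟨m, rfl⟩ : ∃ m, n = m + 1 := ⟨n - 1, by have := hodd.pos; omega⟩
  have hz : ((N f (m + 1)).trace : ZMod 3) = 0 := by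
    rw [htr]; push_cast
    rw [pow_succ, show (3 : ZMod 3) = 0 from rfl, mul_zero]
  rw [trace_fin_three] at hz
  push_cast at hz
  rw [N_mod f hf, N_mod f hf, N_mod f hf] at hz
  have : ∀ i j : Fin 4, i ≠ j → (w i 0 : ZMod 3) * (w j 0 : ZMod 3) + (w i 1 : ZMod 3) * (w j 1 : ZMod 3)
      + (w i 2 : ZMod 3) * (w j 2 : ZMod 3) = -1 := by decide
  have h4 := this _ _ hlast
  have h5 : ((-1 : ZMod 3)) ^ (m + 1) = 0 := by
    linear_combination hz - (-1) ^ m * h4
  rcases neg_one_pow_eq_or (ZMod 3) (m + 1) with h6 | h6 <;> rw [h6] at h5 <;> revert h5 <;> decide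

end Pool.Agent.Results.MP_aceab8_an.Even
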